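import Pool.Agent.H59.L.T374d34.N483.KM.StmF
import Pool.Agent.H59.L.S8.R755.KF.K1

/-!
# Bodies of equal volume with bounded Brunn–Minkowski deficit
-/

set_option autoImplicit false

namespace Pool.Agent.N327.KM

open MeasureTheory Set Filter Topology
open scoped ENNReal InnerProductSpace Pointwise
open Pool.Agent.R754.KG (E un sl Rv)
open Pool.Agent.R755.KF (CB)
open Pool.Agent.Y506.PV (CcW ind)
open Pool.Agent.N483.KM

namespace Bm1

/-- the body with fibres `(1 - u) K + u L` -/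
def M {n : ℕ} (K L : Set (E n)) : Set (E n × E 1) :=
  {z | ∃ a ∈ K, ∃ b ∈ L, z.1 = (1 - z.2 0) • a + z.2 0 • b ∧ 0 ≤ z.2 0 ∧ z.2 0 ≤ 1}

/-- the point `u` of the line -/
noncomputable def pt (u : ℝ) : E 1 := EuclideanSpace.single 0 u

theorem pt_zero (u : ℝ) : pt u 0 = u := by simp [pt]

theorem eq_pt (t : E 1) : t = pt (t 0) := by
  ext i
  have hi : i = 0 := Subsingleton.elim _ _
  subst hi
  rw [pt_zero]

theorem pt0 : pt 0 = 0 := by
  ext i
  have hi : i = 0 := Subsingleton.elim _ _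
  subst hi
  rw [pt_zero]
  rfl

theorem pt_comb (p q u w : ℝ) : p • pt u + q • pt w = pt (p * u + q * w) := by
  ext i
  have hi : i = 0 := Subsingleton.elim _ _
  subst hi
  rw [PiLp.add_apply, PiLp.smul_apply, PiLp.smul_apply, pt_zero, pt_zero, pt_zero]
  rfl

theorem M_compact {n : ℕ} {K L : Set (E n)} (hK : IsCompact K) (hL : IsCompact L) :
    IsCompact (M K L) := by
  have h1 : M K L = (fun z : (E n × E n) × ℝ => ((1 - z.2) • z.1.1 + z.2 • z.1.2, pt z.2)) ''
      ((K ×ˢ L) ×ˢ Icc (0 : ℝ) 1) := by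
    ext ⟨x, t⟩
    constructor
    · rintro ⟨a, ha, b, hb, hx, h0, h1⟩
      refine ⟨((a, b), t 0), ⟨⟨ha, hb⟩, h0, h1⟩, ?_⟩
      simp only at hx ⊢
      rw [← hx, ← eq_pt t]
    · rintro ⟨⟨⟨a, b⟩, u⟩, ⟨⟨ha, hb⟩, hu⟩, hz⟩
      simp only at hz
      obtain ⟨hz1, hz2⟩ := Prod.mk.inj hz
      subst hz1
      subst hz2
      refine ⟨a, ha, b, hb, ?_, ?_, ?_⟩
      · simp only
        rw [pt_zero]
      · simp only
        rw [pt_zero]
        exact hu.1
      · simp only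
        rw [pt_zero]
        exact hu.2
  rw [h1]
  refine ((hK.prod hL).prod isCompact_Icc).image ?_
  have h2 : Continuous (fun u : ℝ => pt u) := by
    unfold pt
    have h3 : (fun u : ℝ => (EuclideanSpace.single (0 : Fin 1) u : E 1)) =
        fun u : ℝ => WithLp.toLp 2 (fun _ : Fin 1 => u) := by
      funext u
      ext i
      have hi : i = 0 := Subsingleton.elim _ _
      subst hi
      simp
    rw [h3]
    exact (PiLp.continuous_toLp 2 _).comp (continuous_pi fun _ => continuous_id)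
  have h3 : Continuous (fun z : (E n × E n) × ℝ => pt z.2) := h2.comp continuous_snd
  have h4 : Continuous (fun z : (E n × E n) × ℝ => (1 - z.2) • z.1.1 + z.2 • z.1.2) := by
    fun_prop
  exact h4.prodMk h3

theorem cv_pair {n : ℕ} {S : Set (E n)} (hS : Convex ℝ S) {a a' : E n} (ha : a ∈ S) (ha' : a' ∈ S)
    {p q : ℝ} (hp : 0 ≤ p) (hq : 0 ≤ q) : ∃ c ∈ S, (p + q) • c = p • a + q • a' := by
  have h : p • a + q • a' ∈ (p + q) • S := by
    rw [hS.add_smul hp hq]
    exact Set.add_mem_add (Set.smul_mem_smul_set ha) (Set.smul_mem_smul_set ha')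
  obtain ⟨c, hc, h2⟩ := h
  exact ⟨c, hc, h2⟩

theorem M_convex {n : ℕ} {K L : Set (E n)} (hK : Convex ℝ K) (hL : Convex ℝ L) :
    Convex ℝ (M K L) := by
  rintro ⟨x, t⟩ ⟨a, ha, b, hb, hx, h0, h1⟩ ⟨x', t'⟩ ⟨a', ha', b', hb', hx', h0', h1'⟩ p q hp hq hpq
  simp only at hx h0 h1 hx' h0' h1'
  have e : (p • (x, t) + q • (x', t') : E n × E 1).2 0 = p * t 0 + q * t' 0 := rfl
  obtain ⟨c, hc, hc2⟩ := cv_pair hK ha ha' (p := p * (1 - t 0)) (q := q * (1 - t' 0))
    (mul_nonneg hp (by linarith)) (mul_nonneg hq (by linarith))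
  obtain ⟨d, hd, hd2⟩ := cv_pair hL hb hb' (p := p * t 0) (q := q * t' 0)
    (mul_nonneg hp h0) (mul_nonneg hq h0')
  refine ⟨c, hc, d, hd, ?_, ?_, ?_⟩
  · rw [e]
    have e1 : 1 - (p * t 0 + q * t' 0) = p * (1 - t 0) + q * (1 - t' 0) := by
      have : (1 : ℝ) = p + q := hpq.symm
      nlinarith
    rw [e1, hc2, hd2]
    show p • x + q • x' = _
    rw [hx, hx']
    simp only [smul_add, smul_smul]
    abel
  · rw [e]
    exact add_nonneg (mul_nonneg hp h0) (mul_nonneg hq h0')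
  · rw [e]
    nlinarith

theorem M_pos {n : ℕ} {K L : Set (E n)} (hK : (interior K).Nonempty) (hL : L.Nonempty) :
    0 < volume (M K L) := by
  obtain ⟨a0, ha0⟩ := hK
  obtain ⟨b0, hb0⟩ := hL
  obtain ⟨r, hr, hball⟩ := Metric.isOpen_iff.1 isOpen_interior a0 ha0
  set U : Set (E n × E 1) := {z | (0 < z.2 0 ∧ z.2 0 < 1) ∧
    ‖z.1 - ((1 - z.2 0) • a0 + z.2 0 • b0)‖ < (1 - z.2 0) * r} with hU
  have hc0 : Continuous (fun z : E n × E 1 => z.2 0) := by fun_prop
  have hUo : IsOpen U := by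
    have h1 : IsOpen {z : E n × E 1 | 0 < z.2 0} := isOpen_lt continuous_const hc0
    have h2 : IsOpen {z : E n × E 1 | z.2 0 < 1} := isOpen_lt hc0 continuous_const
    have h3 : IsOpen {z : E n × E 1 | ‖z.1 - ((1 - z.2 0) • a0 + z.2 0 • b0)‖ <
        (1 - z.2 0) * r} := isOpen_lt (by fun_prop) (by fun_prop)
    exact (h1.inter h2).inter h3
  have hUn : U.Nonempty := by
    refine ⟨((1 - (1 / 2 : ℝ)) • a0 + (1 / 2 : ℝ) • b0, pt (1 / 2)), ?_, ?_⟩
    · simp only
      rw [pt_zero]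
      constructor <;> norm_num
    · simp only
      rw [pt_zero, sub_self, norm_zero]
      exact mul_pos (by norm_num) hr
  have hUM : U ⊆ M K L := by
    rintro ⟨x, t⟩ ⟨⟨h0, h1⟩, h2⟩
    simp only at h0 h1 h2
    have h1' : 0 < 1 - t 0 := by linarith
    refine ⟨a0 + (1 - t 0)⁻¹ • (x - ((1 - t 0) • a0 + t 0 • b0)), ?_, b0, hb0, ?_, h0.le, h1.le⟩
    · apply interior_subset
      apply hball
      rw [Metric.mem_ball, dist_eq_norm, add_sub_cancel_left, norm_smul, Real.norm_eq_abs,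
        abs_of_pos (inv_pos.2 h1')]
      calc (1 - t 0)⁻¹ * ‖x - ((1 - t 0) • a0 + t 0 • b0)‖
          < (1 - t 0)⁻¹ * ((1 - t 0) * r) := mul_lt_mul_of_pos_left h2 (inv_pos.2 h1')
        _ = r := by field_simp
    · simp only
      rw [smul_add, smul_smul, mul_inv_cancel₀ h1'.ne', one_smul]
      abel
  exact lt_of_lt_of_le (hUo.measure_pos volume hUn) (measure_mono hUM)

theorem M_cb {n : ℕ} {K L : Set (E n)} (hK : IsCompact K) (hKc : Convex ℝ K)
    (hKi : (interior K).Nonempty) (hL : IsCompact L) (hLc : Convex ℝ L) (hLn : L.Nonempty) :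
    CB (M K L) := ⟨M_convex hKc hLc, M_compact hK hL, M_pos hKi hLn⟩

theorem sl_pt0 {n : ℕ} {K L : Set (E n)} (hLn : L.Nonempty) : sl (M K L) (pt 0) = K := by
  ext x
  constructor
  · rintro ⟨a, ha, b, hb, hx, -, -⟩
    simp only at hx
    rw [pt_zero, sub_zero, one_smul, zero_smul, add_zero] at hx
    rw [hx]
    exact ha
  · intro hx
    obtain ⟨b, hb⟩ := hLn
    refine ⟨x, hx, b, hb, ?_, ?_, ?_⟩
    · simp only
      rw [pt_zero, sub_zero, one_smul, zero_smul, add_zero]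
    · simp only
      rw [pt_zero]
    · simp only
      rw [pt_zero]
      norm_num

theorem sl_pt1 {n : ℕ} {K L : Set (E n)} (hKn : K.Nonempty) : sl (M K L) (pt 1) = L := by
  ext x
  constructor
  · rintro ⟨a, ha, b, hb, hx, -, -⟩
    simp only at hx
    rw [pt_zero, sub_self, one_smul, zero_smul, zero_add] at hx
    rw [hx]
    exact hb
  · intro hx
    obtain ⟨a, ha⟩ := hKn
    refine ⟨a, ha, x, hx, ?_, ?_, ?_⟩
    · simp only
      rw [pt_zero, sub_self, one_smul, zero_smul, zero_add]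
    · simp only
      rw [pt_zero]
      norm_num
    · simp only
      rw [pt_zero]

theorem sl_half {n : ℕ} {K L : Set (E n)} :
    sl (M K L) (pt (1 / 2)) = (1 / 2 : ℝ) • (K + L) := by
  ext x
  constructor
  · rintro ⟨a, ha, b, hb, hx, -, -⟩
    simp only at hx
    rw [pt_zero] at hx
    refine ⟨a + b, Set.add_mem_add ha hb, ?_⟩
    simp only
    rw [hx, smul_add]
    norm_num
  · rintro ⟨y, ⟨a, ha, b, hb, hy⟩, hx⟩
    simp only at hx hy
    subst hy
    subst hx
    refine ⟨a, ha, b, hb, ?_, ?_, ?_⟩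
    · simp only
      rw [pt_zero, smul_add]
      norm_num
    · simp only
      rw [pt_zero]
      norm_num
    · simp only
      rw [pt_zero]
      norm_num

theorem Rv_out {n : ℕ} {K L : Set (E n)} (u : ℝ) (hu : ¬ (0 ≤ u ∧ u ≤ 1)) :
    Rv (M K L) (pt u) = 0 := by
  have h : sl (M K L) (pt u) = ∅ := by
    ext x
    constructor
    · rintro ⟨a, ha, b, hb, hx, h0, h1⟩
      simp only at h0 h1
      rw [pt_zero] at h0 h1
      exact (hu ⟨h0, h1⟩).elim
    · intro hx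
      exact hx.elim
  unfold Rv
  rw [h]
  simp

theorem Rv_bd {n : ℕ} {K L : Set (E n)} (hK : IsCompact K) (hKc : Convex ℝ K)
    (hKi : (interior K).Nonempty) (hL : IsCompact L) (hLc : Convex ℝ L)
    (hLi : (interior L).Nonempty) (hv : volume K = volume L) (s : ℝ) (hs : 0 < s)
    (hKL : volume ((1 / 2 : ℝ) • (K + L)) ≤ ENNReal.ofReal s * volume K) (u : ℝ) :
    Rv (M K L) (pt u) ≤ s ^ 2 * (volume K).toReal := by
  have hKn : K.Nonempty := hKi.mono interior_subset
  have hLn : L.Nonempty := hLi.mono interior_subset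
  have hcb := M_cb hK hKc hKi hL hLc hLn
  set v : ℝ := (volume K).toReal with hvdef
  have hKtop : volume K ≠ ⊤ := hK.measure_lt_top.ne
  have hvpos : 0 < v := by
    refine ENNReal.toReal_pos ?_ hKtop
    have h1 : 0 < volume (interior K) := isOpen_interior.measure_pos volume hKi
    exact (lt_of_lt_of_le h1 (measure_mono interior_subset)).ne'
  have hV0 : Rv (M K L) (pt 0) = v := by
    unfold Rv
    rw [sl_pt0 hLn]
  have hV1 : Rv (M K L) (pt 1) = v := by
    unfold Rv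
    rw [sl_pt1 hKn, ← hv]
  have hVh : Rv (M K L) (pt (1 / 2)) ≤ s * v := by
    unfold Rv
    rw [sl_half]
    have h1 := ENNReal.toReal_mono (ENNReal.mul_ne_top ENNReal.ofReal_ne_top hKtop) hKL
    rwa [ENNReal.toReal_mul, ENNReal.toReal_ofReal hs.le] at h1
  have hnn : ∀ t, 0 ≤ Rv (M K L) t := fun t => ENNReal.toReal_nonneg
  by_cases hu : 0 ≤ u ∧ u ≤ 1
  · have hlow : ∀ w : ℝ, 0 ≤ w → w ≤ 1 → v ≤ Rv (M K L) (pt w) := by
      intro w h0 h1
      rcases eq_or_lt_of_le h0 with h0 | h0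
      · rw [← h0, hV0]
      rcases eq_or_lt_of_le h1 with h1 | h1
      · rw [h1, hV1]
      have h := Pool.Agent.R755.KF.geo n 1 (M K L) hcb (pt 0) (pt 1) w h0 h1
      rw [hV0, hV1, pt_comb, ← Real.rpow_add hvpos, sub_add_cancel, Real.rpow_one] at h
      have e : (1 - w) * 0 + w * 1 = w := by ring
      rw [e] at h
      exact h
    have h := Pool.Agent.R755.KF.geo n 1 (M K L) hcb (pt u) (pt (1 - u)) (1 / 2) (by norm_num)
      (by norm_num)
    rw [pt_comb] at h
    have e : (1 - 1 / 2) * u + 1 / 2 * (1 - u) = (1 / 2 : ℝ) := by ring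
    have e2 : (1 - 1 / 2 : ℝ) = 1 / 2 := by norm_num
    rw [e, e2] at h
    have hA := hnn (pt u)
    have hB := hnn (pt (1 - u))
    rw [← Real.mul_rpow hA hB, ← Real.sqrt_eq_rpow] at h
    have h2 : Rv (M K L) (pt u) * Rv (M K L) (pt (1 - u)) ≤ (s * v) ^ 2 := by
      have h3 := h.trans hVh
      exact (Real.sqrt_le_left (by positivity)).1 h3
    have h3 := hlow (1 - u) (by linarith [hu.2]) (by linarith [hu.1])
    have h4 : Rv (M K L) (pt u) * v ≤ (s ^ 2 * v) * v := by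
      calc Rv (M K L) (pt u) * v ≤ Rv (M K L) (pt u) * Rv (M K L) (pt (1 - u)) :=
            mul_le_mul_of_nonneg_left h3 hA
        _ ≤ (s * v) ^ 2 := h2
        _ = (s ^ 2 * v) * v := by ring
    exact le_of_mul_le_mul_right h4 hvpos
  · rw [Rv_out u hu]
    positivity

end Bm1

/-- F4: bodies of equal volume with bounded Brunn–Minkowski deficit -/
theorem t_BM1 (h : S_F2F) : S_BM1 := by
  intro s hs
  set s1 : ℝ := max s 1 with hs1
  have hs1p : 0 < s1 := lt_of_lt_of_le one_pos (le_max_right _ _)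
  have hss1 : s ≤ s1 := le_max_left _ _
  obtain ⟨δ', hδ', H⟩ := h 1 (1 / s1 ^ 2) (by positivity)
  refine ⟨δ', hδ', ?_⟩
  intro κ' δ hκ' hδ
  obtain ⟨κ, hκ, H2⟩ := H κ' δ hκ' hδ
  refine ⟨κ, hκ, ?_⟩
  intro n K L hK hKc hKi hL hLc hLi hv hKL hcc
  have hKn : K.Nonempty := hKi.mono interior_subset
  have hLn : L.Nonempty := hLi.mono interior_subset
  have hcb := Bm1.M_cb hK hKc hKi hL hLc hLn
  have hbd := Bm1.Rv_bd hK hKc hKi hL hLc hLi hv s hs hKL
  have hvn : 0 ≤ (volume K).toReal := ENNReal.toReal_nonneg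
  have hall : ∀ t : E 1, 1 / s1 ^ 2 * Rv (Bm1.M K L) t ≤ (volume K).toReal := by
    intro t
    rw [Bm1.eq_pt t]
    have h1 := hbd (t 0)
    have h2 : s ^ 2 * (volume K).toReal ≤ s1 ^ 2 * (volume K).toReal :=
      mul_le_mul_of_nonneg_right (pow_le_pow_left₀ hs.le hss1 2) hvn
    have h3 : Rv (Bm1.M K L) (Bm1.pt (t 0)) ≤ s1 ^ 2 * (volume K).toReal := h1.trans h2
    rw [one_div, inv_mul_le_iff₀ (by positivity)]
    exact h3
  have e0 : sl (Bm1.M K L) (Bm1.pt 0) = K := Bm1.sl_pt0 hLn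
  have e1 : sl (Bm1.M K L) (Bm1.pt 1) = L := Bm1.sl_pt1 hKn
  have r0 : Rv (Bm1.M K L) (Bm1.pt 0) = (volume K).toReal := by
    unfold Rv
    rw [e0]
  have r1 : Rv (Bm1.M K L) (Bm1.pt 1) = (volume K).toReal := by
    unfold Rv
    rw [e1, hv]
  have key := H2 n (Bm1.M K L) (Bm1.pt 0) (Bm1.pt 1) hcb (by rw [r0]; exact hall)
    (by rw [r1]; exact hall) (by rw [e0]; exact hcc)
  rwa [e1] at key

end Pool.Agent.N327.KM
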